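import Pool.Agent.V11225.IM.Final

/-!
# The imbalances of the edges of a graph in which every imbalance is positive are graphic
-/

namespace Pool.Agent.Results.MP_440a65_co.ImbalanceGraphic

open Finset

/-- The imbalance `|deg u - deg v|` of the pair `s(u, v)`. -/
def imbalance {V : Type} [Fintype V] (G : SimpleGraph V) [DecidableRel G.Adj] (e : Sym2 V) : ℕ :=
  Sym2.lift ⟨fun u v => ((G.degree u : ℤ) - G.degree v).natAbs, fun u v => by
    show ((G.degree u : ℤ) - G.degree v).natAbs = ((G.degree v : ℤ) - G.degree u).natAbs
    omega⟩ e

/-- The multiset `M_G` of the imbalances of the edges of `G`. -/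
def imbalances {V : Type} [Fintype V] [DecidableEq V] (G : SimpleGraph V) [DecidableRel G.Adj] :
    Multiset ℕ :=
  G.edgeFinset.val.map (imbalance G)

/-- A multiset of natural numbers is graphic if it is the multiset of the degrees of the vertices
of a finite simple graph. -/
def IsGraphic (M : Multiset ℕ) : Prop :=
  ∃ (W : Type) (_ : Fintype W) (H : SimpleGraph W) (_ : DecidableRel H.Adj),
    (univ : Finset W).val.map (fun w => H.degree w) = M

/-- **If every edge of a finite simple graph `G` joins vertices of different degrees, then the
multiset of the imbalances of the edges of `G` is graphic.** -/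
theorem result (V : Type) [Fintype V] [DecidableEq V] (G : SimpleGraph V) [DecidableRel G.Adj]
    (hG : ∀ u v, G.Adj u v → G.degree u ≠ G.degree v) : IsGraphic (imbalances G) := by
  classical
  have hdg : ∀ v, V11225.IM.dg G v = G.degree v := by
    intro v
    unfold V11225.IM.dg
    rw [← SimpleGraph.card_neighborFinset_eq_degree]
    congr 1
    ext w
    simp
  have himb : ∀ e, V11225.IM.imb G e = imbalance G e := by
    intro e
    induction e using Sym2.ind with
    | _ x y =>
      change ((V11225.IM.dg G x : ℤ) - V11225.IM.dg G y).natAbs =
        ((G.degree x : ℤ) - G.degree y).natAbs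
      rw [hdg, hdg]
  have hed : V11225.IM.ed G = G.edgeFinset := by
    ext e
    rw [V11225.IM.mem_ed, SimpleGraph.mem_edgeFinset]
  obtain ⟨H, hH⟩ := V11225.IM.imb_graphic G (by
    intro e he
    rw [V11225.IM.mem_ed] at he
    rw [himb]
    induction e using Sym2.ind with
    | _ x y =>
      change 0 < ((G.degree x : ℤ) - G.degree y).natAbs
      have := hG x y he
      omega)
  refine ⟨↥(V11225.IM.ed G), inferInstance, H, Classical.decRel _, ?_⟩
  have h1 : (fun w => H.degree w) = fun w : ↥(V11225.IM.ed G) => imbalance G w.1 := by
    funext w
    rw [← himb, ← hH w, ← SimpleGraph.card_neighborFinset_eq_degree]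
    unfold V11225.IM.dg
    congr 1
    ext x
    simp
  rw [h1]
  unfold imbalances
  rw [← hed]
  have h2 : (univ : Finset ↥(V11225.IM.ed G)).val.map (fun w => imbalance G w.1) =
      ((univ : Finset ↥(V11225.IM.ed G)).val.map Subtype.val).map (imbalance G) := by
    rw [Multiset.map_map]
    rfl
  rw [h2]
  congr 1
  have h3 : (univ : Finset ↥(V11225.IM.ed G)).map (Function.Embedding.subtype _) =
      V11225.IM.ed G := by
    ext e
    simp
  exact congrArg Finset.val h3

end Pool.Agent.Results.MP_440a65_co.ImbalanceGraphic
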